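import Pool.Agent.H51.ERA.Stmts
import Pool.Agent.H51.ERA.Base

/-!
MP_e0047e_lc, board era, modules HC1 and HC2: the types read off in the hybrid.
-/

set_option autoImplicit false

namespace Pool.Agent.H5.ERA

open Pool.Agent.H51.ERA

/-- Slices of lists whose beginnings are permuted are permuted. -/
theorem slice_perm {α : Type} {A B : List α} {m m' : ℕ} (h : m ≤ m')
    (h1 : (A.take m).Perm (B.take m)) (h2 : (A.take m').Perm (B.take m')) :
    ((A.take m').drop m).Perm ((B.take m').drop m) := by
  have eA : A.take m' = A.take m ++ (A.take m').drop m := by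
    have : A.take m = (A.take m').take m := by rw [List.take_take, Nat.min_eq_left h]
    rw [this]; exact (List.take_append_drop m (A.take m')).symm
  have eB : B.take m' = B.take m ++ (B.take m').drop m := by
    have : B.take m = (B.take m').take m := by rw [List.take_take, Nat.min_eq_left h]
    rw [this]; exact (List.take_append_drop m (B.take m')).symm
  rw [eA, eB] at h2
  have h3 : (A.take m ++ (A.take m').drop m).Perm (A.take m ++ (B.take m').drop m) :=
    h2.trans (h1.symm.append_right _)
  exact (List.perm_append_left_iff _).1 h3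

/-- Singletons. -/
theorem slice_one {α : Type} {A B : List α} {m : ℕ} (hA : m < A.length) (hB : m < B.length)
    (h1 : (A.take m).Perm (B.take m)) (h2 : (A.take (m + 1)).Perm (B.take (m + 1))) :
    (A.take (m + 1)).drop m = (B.take (m + 1)).drop m := by
  have h3 := slice_perm (Nat.le_succ m) h1 h2
  have eA := take_succ_drop A m A[m] (List.getElem?_eq_getElem hA)
  have eB := take_succ_drop B m B[m] (List.getElem?_eq_getElem hB)
  simp only [Nat.succ_eq_add_one] at h3
  rw [eA, eB] at h3 ⊢
  exact List.perm_singleton.1 h3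

theorem yl_take_split {N : Type} (K : List (Sg N)) {m m' : ℕ} (h : m ≤ m') :
    yl (K.take m') = yl (K.take m) ++ yl ((K.take m').drop m) := by
  rw [← yl_append]
  congr 1
  have : K.take m = (K.take m').take m := by rw [List.take_take, Nat.min_eq_left h]
  rw [this]; exact (List.take_append_drop m (K.take m')).symm

/-- A permutation of a word of opening brackets. -/
theorem ops_perm {w : List Ltr} {z : List Ent} (h : w.Perm (z.map Ltr.op)) :
    ∃ z' : List Ent, w = z'.map Ltr.op := by
  apply exists_ops
  intro x hx
  have := h.mem_iff.1 hx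
  obtain ⟨a, _, rfl⟩ := List.mem_map.1 this
  rfl

/-- Entries with the same kind, one of them short, have the same yield. -/
theorem kd_short {N : Type} {s : ℕ} {x x' : Sg N} (h : kd s x = kd s x')
    (hs : x'.2.length < lam s) : x.2 = x'.2 := by
  have h2 := congrArg Prod.snd h
  simp only [kd] at h2
  rw [dif_pos hs] at h2
  split_ifs at h2 with h3
  have := Option.some.inj h2
  exact congrArg Subtype.val this

/-- Slices with the same kinds, one of them with short entries, have the same yields. -/
theorem kd_slice {N : Type} {s : ℕ} : ∀ (A A' : List (Sg N)), A.map (kd s) = A'.map (kd s) →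
    (∀ x ∈ A', x.2.length < lam s) → yl A = yl A' := by
  intro A
  induction A with
  | nil =>
    intro A' h _
    cases A' with
    | nil => rfl
    | cons a A' => simp at h
  | cons x A ih =>
    intro A' h hs
    cases A' with
    | nil => simp at h
    | cons x' A' =>
      simp only [List.map_cons, List.cons.injEq] at h
      rw [yl_cons, yl_cons, kd_short h.1 (hs x' List.mem_cons_self),
        ih A' h.2 (fun y hy => hs y (List.mem_cons_of_mem _ hy))]

/-- The whole list of types of the hybrid. -/
theorem vs_of_leaf {w u c : List Ltr} {a : Ltr} {σ : List Ent} (hw : Good w) (e : w = u ++ a :: c)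
    (ha : Leaf a) (hσ : run u [] = some σ) (hl : (vs w).length = σ.length) :
    vs w = (σ.map Prod.fst).reverse := by
  have h1 := hw.leaf u a c e ha σ hσ
  exact (h1.eq_of_length (by rw [List.length_reverse, List.length_map, hl])).symm

theorem vs_len (hCNW : CNWStmt) {s t : ℕ} {b' : ℕ → Bool} {N : Type} {K' B : List (Sg N)}
    (h : yl K' = WW s t b') (hB : B.Perm K') : (vs (yl B)).length = nn s t := by
  have h1 := (vs_perm (yl_perm hB)).length_eq
  rw [h1, h, (hCNW s t b').1]
  simp [vpart]

theorem HC1_thm (hCNW : CNWStmt) : HC1Stmt := by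
  intro s t b b' N K K' B e off m1 m2 m3 hK hK' hM hM' hB hkd hms hG x hx
  have p1 := hms m1 (by simp)
  have p2 := hms m2 (by simp)
  have p3 := hms m3 (by simp)
  have p4 := hms (m3 + 1) (by simp)
  have hlen := vs_len hCNW hK' hB
  have lB : B.length = K'.length := hB.length_eq
  -- the four parts
  have s1 := yl_take_split B hM.h12
  have s2 := yl_take_split B hM.h23
  have s3 := yl_take_split B (Nat.le_succ m3)
  have s4 := yl_split B (m3 + 1)
  simp only [Nat.succ_eq_add_one] at s3
  -- part 1
  obtain ⟨z, hz, hzl, hzt⟩ := hM.hops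
  have e1 : yl ((B.take m2).drop m1) = z.map Ltr.op := by
    rw [← hz]
    apply kd_slice (s := s)
    · rw [List.map_drop, List.map_take, hkd, ← List.map_take, ← List.map_drop]
    · exact hM.hshort
  -- part 2
  obtain ⟨z2', hz2'⟩ := hM'.hmid
  obtain ⟨z2, hz2⟩ : ∃ z2 : List Ent, yl ((B.take m3).drop m2) = z2.map Ltr.op := by
    apply ops_perm (z := z2')
    rw [← hz2']
    exact yl_perm (slice_perm hM.h23 p2 p3)
  -- part 3
  obtain ⟨z3, a, c, hz3, ha, hh3⟩ := hM'.hleaf
  have e3 : yl ((B.take (m3 + 1)).drop m3) = z3.map Ltr.op ++ a :: c := by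
    rw [slice_one (by rw [lB]; exact hM'.h3) hM'.h3 p3 p4, hz3]
  -- the word
  have hw : yl B = (yl (B.take m3) ++ z3.map Ltr.op) ++ a :: (c ++ yl (B.drop (m3 + 1))) := by
    rw [s4, s3, e3]
    simp [List.append_assoc]
  -- stacks
  have hbal := hG.bal
  have hrun := hbal
  rw [hw] at hrun
  obtain ⟨σ, hσ, _⟩ := run_split hrun
  obtain ⟨τ3, hτ3, h3⟩ := run_split hσ
  rw [run_ops] at h3
  rw [s2] at hτ3
  obtain ⟨τ2, hτ2, h2⟩ := run_split hτ3
  rw [hz2, run_ops] at h2
  rw [s1] at hτ2
  obtain ⟨τ1, hτ1, h1⟩ := run_split hτ2
  rw [e1, run_ops] at h1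
  simp only [Option.some.injEq] at h1 h2 h3
  -- lengths
  have c1 := run_count hτ1
  have q1 := (yl_perm p1).countP_eq IsOp
  have q1' := (yl_perm p1).countP_eq IsCl
  rw [q1, q1'] at c1
  have c1' := hM'.hht
  simp only [List.length_nil, Nat.add_zero] at c1
  have lτ1 : τ1.length = e * gg s t + off := by omega
  have c3 := run_count hσ
  rw [List.countP_append, List.countP_append, countP_ops, countP_ops'] at c3
  have q3 := (yl_perm p3).countP_eq IsOp
  have q3' := (yl_perm p3).countP_eq IsCl
  rw [q3, q3'] at c3
  simp only [List.length_nil, Nat.add_zero] at c3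
  have lσ : σ.length = nn s t := by omega
  have hvs := vs_of_leaf hG hw ha hσ (by rw [hlen, lσ])
  have hfin : vs (yl B) = (τ1.map Prod.fst).reverse ++ (z.map Prod.fst ++
      (z2.map Prod.fst ++ z3.map Prod.fst)) := by
    rw [hvs, ← h3, ← h2, ← h1]
    simp [List.map_append, List.reverse_append]
  have ho := hM.hoff
  have hl1 : ((τ1.map Prod.fst).reverse).length = e * gg s t + off := by simp [lτ1]
  rw [hfin, List.getElem?_append_right (by rw [hl1]; omega), hl1]
  have hix : e * gg s t + lam s + x - (e * gg s t + off) = lam s - off + x := by omega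
  rw [hix, List.getElem?_append_left (by rw [List.length_map]; omega), hzt]
  rw [List.getElem?_map, List.getElem?_range' (by omega)]
  simp only [Option.map_some, Option.some.injEq]
  congr 1
  omega

theorem HC2_thm (hCNW : CNWStmt) : HC2Stmt := by
  intro s t b' N K' B mC hK' hM' hB hms hG j hj1 hj2
  have p1 := hms mC (by simp)
  have p2 := hms (mC + 1) (by simp)
  have hlen := vs_len hCNW hK' hB
  have lB : B.length = K'.length := hB.length_eq
  have s3 := yl_take_split B (Nat.le_succ mC)
  have s4 := yl_split B (mC + 1)
  simp only [Nat.succ_eq_add_one] at s3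
  obtain ⟨u, z, a, c, hz, ha, hzt, hcnt⟩ := hM'.hleaf
  have e3 : yl ((B.take (mC + 1)).drop mC) = u ++ (z.map Ltr.op ++ a :: c) := by
    rw [slice_one (by rw [lB]; exact hM'.hC) hM'.hC p1 p2, hz]
  have hw : yl B = ((yl (B.take mC) ++ u) ++ z.map Ltr.op) ++ a :: (c ++ yl (B.drop (mC + 1))) := by
    rw [s4, s3, e3]
    simp [List.append_assoc]
  have hrun := hG.bal
  rw [hw] at hrun
  obtain ⟨σ, hσ, _⟩ := run_split hrun
  obtain ⟨τ, hτ, h3⟩ := run_split hσ
  rw [run_ops] at h3
  simp only [Option.some.injEq] at h3
  have c1 := run_count hτ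
  rw [List.countP_append, List.countP_append] at c1
  rw [List.countP_append, List.countP_append] at hcnt
  have q1 := (yl_perm p1).countP_eq IsOp
  have q1' := (yl_perm p1).countP_eq IsCl
  rw [q1, q1'] at c1
  simp only [List.length_nil, Nat.add_zero] at c1
  have lτ : τ.length = gg s t := by omega
  have hzl : z.length = nn s t - gg s t := by
    have := congrArg List.length hzt
    simpa using this
  have hgn : gg s t ≤ nn s t := by omega
  have lσ : σ.length = nn s t := by
    rw [← h3]; simp [lτ, hzl]; omega
  have hvs := vs_of_leaf hG hw ha hσ (by rw [hlen, lσ])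
  have hfin : vs (yl B) = (τ.map Prod.fst).reverse ++ z.map Prod.fst := by
    rw [hvs, ← h3]
    simp [List.map_append, List.reverse_append]
  have hl1 : ((τ.map Prod.fst).reverse).length = gg s t := by simp [lτ]
  rw [hfin, List.getElem?_append_right (by rw [hl1]; omega), hl1, hzt, List.getElem?_map,
    List.getElem?_range' (by omega)]
  simp only [Option.map_some, Option.some.injEq]
  congr 1
  omega

end Pool.Agent.H5.ERA
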